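import Pool.Agent.Helper27.RV.St

/-!
# Project RV, module DIR (MP_60edf5_lc): fewer than `m` functions below `c` are bounded off small sets
-/

set_option autoImplicit false

open Cardinal Ordinal Set

universe u

namespace Pool.Agent.Helper29.RV

open Pool.Agent.Helper27.RV

theorem pDIR (hJOIN : StJOIN.{u}) (hSELF : StSELF.{u}) : StDIR.{u} := by
  intro K al m L R J c g hctx hL hJ hlarge hR hg
  let Q : Type u := {q : R × Set L // q.2 ⊆ {l | ℵ₀ < (c l).cof} ∧ ¬ Small K m J c q.2}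
  have hQ : #Q < m := by
    refine (mk_subtype_le _).trans_lt ?_
    rw [mk_prod, Cardinal.lift_id, Cardinal.lift_id]
    exact mul_lt_of_lt hctx.reg.aleph0_le hR ((hctx.mk_set hL).trans_lt hctx.lt)
  have hnl : ∀ q : Q, ¬ Large K m J (g q.1.1) q.1.2 := by
    intro q h
    exact q.2.2 (hSELF K m L J c (g q.1.1) q.1.2 hJ h (fun l _ => hg q.1.1 l))
  obtain ⟨ι, hι, E, hE⟩ := hJOIN K m L Q (fun _ => J) (fun q => g q.1.1) (fun q => q.1.2)
    hctx.reg hQ hnl
  obtain ⟨S, hS1, hS2⟩ := hlarge ι hι E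
  have hs : ∀ l, ∃ s : Ordinal.{u}, (ℵ₀ < (c l).cof → s < c l ∧ ∀ n, S l n < s) := by
    intro l
    by_cases h : ℵ₀ < (c l).cof
    · obtain ⟨s, hs, h1⟩ := exists_bd_nat h (S l) (fun n => hS1 l trivial n)
      exact ⟨s, fun _ => ⟨hs, h1⟩⟩
    · exact ⟨0, fun h' => absurd h' h⟩
  choose s hs using hs
  refine ⟨s, fun l hl => (hs l hl).1, fun r => ?_⟩
  by_contra hns
  obtain ⟨B, -, hB2, hB3⟩ := hE ⟨(r, {l | ℵ₀ < (c l).cof ∧ s l < g r l}),
    fun l hl => hl.1, hns⟩ S (fun l hl n => ((hs l hl.1).2 n).trans hl.2)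
  exact hB3 (hS2 B (subset_univ B) hB2)

end Pool.Agent.Helper29.RV
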