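import Pool.Agent.Helper27.RV.St

/-!
# Project RV, module SELF (MP_60edf5_lc): a smaller large function makes a set small
-/

set_option autoImplicit false

open Cardinal Ordinal Set

universe u

namespace Pool.Agent.Helper29.RV

open Pool.Agent.Helper27.RV

theorem pSELF (hRST : StRST.{u}) : StSELF.{u} := by
  intro K m L J c c' B hJ hlarge hlt
  obtain ⟨h1, h2⟩ := hRST K m L J c' B hJ hlarge
  refine ⟨B, Subtype.val, {Y : Set B | Subtype.val '' Y ∈ J}, fun y => c' y, h1,
    fun y => y.2, ?_, ?_, fun y => hlt y y.2, h2⟩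
  · intro l
    refine Set.Subsingleton.countable ?_
    intro x hx y hy
    have hx' : (x : L) = l := hx
    have hy' : (y : L) = l := hy
    exact Subtype.ext (hx'.trans hy'.symm)
  · intro X hX hXJ
    have h3 : (Subtype.val '' ((Subtype.val : B → L) ⁻¹' X)) ∈ J := hXJ
    have h4 : (Subtype.val '' ((Subtype.val : B → L) ⁻¹' X)) = X := by
      ext x
      constructor
      · rintro ⟨y, hy, rfl⟩
        exact hy
      · intro hx
        exact ⟨⟨x, hX hx⟩, hx, rfl⟩
    rwa [h4] at h3

end Pool.Agent.Helper29.RV
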